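import Mathlib
import Pool.Agent.Lib.helper11.Det

namespace Pool.Agent.H.MP_9fc12a_nt

open Pool.Agent.Lib.helper11.Det

variable {R : Type} [CommRing R]

def Hk (n : ℕ) (φ : ℕ → R) : R := D n (fun i j => φ (i + j))

lemma D_opc (n : ℕ) (K : ℕ → ℕ → R) (c : ℕ → R) (s : ℕ → ℕ)
    (hs : ∀ i < n, c i ≠ 0 → s i < n)
    (h : (∀ i < n, c i ≠ 0 → s i < i) ∨ (∀ i < n, c i ≠ 0 → i < s i)) :
    D n K = D n (fun i j => K i j + c j * K i (s j)) := by
  rw [D_transpose, D_op n _ c s hs h, D_transpose]

def B (N : ℕ) (φ : ℕ → R) (a c : R) (i j : ℕ) : R :=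
  if i < N then (if j < N then φ (i + j) else if i + j < 2 * N then a else a + c)
  else if j < N then (if i + j < 2 * N then a else a + c)
  else if i + j < 3 * N then c else -c

lemma stage1 (N m : ℕ) (hN : 0 < N) (hm : m ≤ N) (φ : ℕ → R) (a c : R)
    (h1 : ∀ s < N, φ (s + N) = φ s + a)
    (h2 : ∀ s, N ≤ s → s < 2 * N → φ (s + N) = φ s + a + c)
    (h3 : ∀ s, 2 * N ≤ s → s < 3 * N → φ (s + N) = φ s + a) :
    Hk (N + m) φ = D (N + m) (B N φ a c) := by
  have hc : ∀ i, (if N ≤ i then (-1 : R) else 0) ≠ 0 → N ≤ i := fun i h => by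
    by_contra h'; exact h (if_neg h')
  rw [Hk, D_op _ _ (fun i => if N ≤ i then -1 else 0) (fun i => i - N) (fun i _ _ => by omega)
      (Or.inl fun i _ h => by have := hc i h; omega),
    D_opc _ _ (fun i => if N ≤ i then -1 else 0) (fun i => i - N) (fun i _ _ => by omega)
      (Or.inl fun i _ h => by have := hc i h; omega)]
  refine D_congr fun i hi j hj => ?_
  unfold B
  by_cases h4 : i < N <;> by_cases h5 : j < N
  · simp [h4, h5, not_le.2 h4, not_le.2 h5]
  · obtain ⟨j, rfl⟩ : ∃ k, j = k + N := ⟨j - N, by omega⟩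
    simp only [h4, h5, not_le.2 h4, not_lt.1 h5, if_true, if_false, Nat.add_sub_cancel,
      ← add_assoc]
    split_ifs with h6
    · rw [h1 _ (by omega)]; ring
    · rw [h2 _ (by omega) (by omega)]; ring
  · obtain ⟨i, rfl⟩ : ∃ k, i = k + N := ⟨i - N, by omega⟩
    simp only [h4, h5, not_le.2 h5, not_lt.1 h4, if_true, if_false, Nat.add_sub_cancel,
      add_right_comm i N j]
    split_ifs with h6
    · rw [h1 _ (by omega)]; ring
    · rw [h2 _ (by omega) (by omega)]; ring
  · obtain ⟨i, rfl⟩ : ∃ k, i = k + N := ⟨i - N, by omega⟩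
    obtain ⟨j, rfl⟩ : ∃ k, j = k + N := ⟨j - N, by omega⟩
    simp only [h4, h5, not_lt.1 h5, not_lt.1 h4, if_true, if_false, Nat.add_sub_cancel,
      ← add_assoc, add_right_comm i N j]
    split_ifs with h6
    · rw [h2 (i + j + N) (by omega) (by omega), h1 (i + j) (by omega)]; ring
    · rw [h3 (i + j + N) (by omega) (by omega), h2 (i + j) (by omega) (by omega)]; ring

def C1 (N m : ℕ) (φ : ℕ → R) (a c : R) (i j : ℕ) : R :=
  if N ≤ i ∧ i + 1 < N + m then (if i + j + 1 = 2 * N ∧ j < N then -c else 0)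
  else if N ≤ j ∧ j + 1 < N + m then (if i + j + 1 = 2 * N ∧ i < N then -c else 0)
  else B N φ a c i j

lemma stage2 (N m : ℕ) (hm : 2 * m ≤ N + 1) (φ : ℕ → R) (a c : R) :
    D (N + m) (B N φ a c) = D (N + m) (C1 N m φ a c) := by
  have hc : ∀ i, (if N ≤ i ∧ i + 1 < N + m then (-1 : R) else 0) ≠ 0 → i + 1 < N + m :=
    fun i h => by by_contra h'; exact h (if_neg (fun e => h' e.2))
  rw [D_op _ _ (fun i => if N ≤ i ∧ i + 1 < N + m then -1 else 0) (fun i => i + 1)
      (fun i _ h => hc i h) (Or.inr fun i _ _ => by omega),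
    D_opc _ _ (fun i => if N ≤ i ∧ i + 1 < N + m then -1 else 0) (fun i => i + 1)
      (fun i _ h => hc i h) (Or.inr fun i _ _ => by omega)]
  refine D_congr fun i hi j hj => ?_
  unfold C1 B
  by_cases h4 : N ≤ i ∧ i + 1 < N + m <;> by_cases h5 : N ≤ j ∧ j + 1 < N + m
  · simp only [h4, h5, and_self, if_true, show ¬ i < N by omega, show ¬ j < N by omega,
      show ¬ i + 1 < N by omega, show ¬ j + 1 < N by omega, if_false, and_false]
    split_ifs <;> first | ring1 | (exfalso; omega)
  · simp only [h4, h5, and_self, if_true, show ¬ i < N by omega,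
      show ¬ i + 1 < N by omega, if_false, zero_mul, add_zero]
    split_ifs <;> first | ring1 | (exfalso; omega)
  · simp only [h4, h5, and_self, if_true, show ¬ j < N by omega,
      show ¬ j + 1 < N by omega, if_false, zero_mul, add_zero]
    split_ifs <;> first | ring1 | (exfalso; omega)
  · simp only [h4, h5, if_false, zero_mul, add_zero]

lemma case1 (p μ : ℕ) (hp : μ + 1 ≤ p) (φ : ℕ → R) (a c ci : R) (hc : c * ci = 1) :
    D (p + μ + (μ + 1)) (B (p + μ) φ a c) =
      (-1) ^ μ * c ^ (2 * μ + 1) * Hk p (fun s => φ s - a * a * ci) := by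
  rw [stage2 _ _ (by omega), D_rev _ p (2 * μ) (by omega), D_seg p μ (μ + 1) _ (-c), ← add_assoc,
    D_seg' p μ 1 _ (-c), D_border p _ a c ci hc]
  · rw [show 2 * μ / 2 = μ by omega, Hk, D_congr (L := fun i j => φ (i + j) - a * a * ci)]
    · rw [show c ^ (2 * μ + 1) = (-c) ^ μ * (-c) ^ μ * c by rw [← mul_pow]; ring]
      ring
    · intro i hi j hj
      simp only [hi, hj, if_true, C1, B, show ¬ (p ≤ i ∧ i < p + 2 * μ) by omega, if_false,
        show ¬ (p + μ ≤ i ∧ i + 1 < p + μ + (μ + 1)) by omega,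
        show ¬ (p + μ ≤ j ∧ j + 1 < p + μ + (μ + 1)) by omega, show i < p + μ by omega,
        show j < p + μ by omega]
  · intro i hi
    simp only [hi, if_true, lt_irrefl, if_false, show ¬ p + μ < p by omega,
      show ¬ (p ≤ i ∧ i < p + 2 * μ) by omega, C1, B]
    split_ifs <;> first | rfl | (exfalso; omega)
  · intro i hi
    simp only [hi, if_true, lt_irrefl, if_false, show ¬ p + μ < p by omega,
      show ¬ (p ≤ p + μ + μ ∧ p + μ + μ < p + 2 * μ) by omega, C1, B]
    split_ifs <;> first | rfl | (exfalso; omega)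
  · simp only [lt_irrefl, if_false, show ¬ p + μ < p by omega,
      show ¬ (p ≤ p + μ + μ ∧ p + μ + μ < p + 2 * μ) by omega, C1, B]
    split_ifs <;> first | rfl | (exfalso; omega)
  · intro b hb j hj
    simp only [show ¬ p + b < p by omega, if_false, C1, B]
    split_ifs <;> first | rfl | (exfalso; omega)
  · intro b hb j hj
    simp only [show p ≤ p + b ∧ p + b < p + 2 * μ by omega, and_self, if_true, C1, B]
    split_ifs <;> first | rfl | (exfalso; omega)

def B3 (N m : ℕ) (φ : ℕ → R) (a c hf : R) (i j : ℕ) : R :=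
  if i < m then
    (if j < m then φ (i + j) + a + (if i + j < N then hf * hf * c else c - hf * hf * c)
      else if j < N then B N φ a c i j + hf * B N φ a c (i + N) j else a + hf * c)
  else if j < m then (if i < N then B N φ a c i j + hf * B N φ a c i (j + N) else a + hf * c)
  else B N φ a c i j

lemma stage3 (N m : ℕ) (hN : 0 < N) (hm : m ≤ N) (φ : ℕ → R) (a c hf : R) (h2 : 2 * hf = 1) :
    D (N + m) (B N φ a c) = D (N + m) (B3 N m φ a c hf) := by
  have hc : ∀ i, (if i < m then hf else 0) ≠ 0 → i + N < N + m :=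
    fun i h => by by_contra h'; exact h (if_neg (by omega))
  rw [D_op _ _ (fun i => if i < m then hf else 0) (fun i => i + N)
      (fun i _ h => hc i h) (Or.inr fun i _ _ => by omega),
    D_opc _ _ (fun i => if i < m then hf else 0) (fun i => i + N)
      (fun i _ h => hc i h) (Or.inr fun i _ _ => by omega)]
  refine D_congr fun i hi j hj => ?_
  unfold B3
  by_cases h4 : i < m <;> by_cases h5 : j < m
  · simp only [h4, h5, if_true, B, show i < N by omega, show j < N by omega,
      show ¬ i + N < N by omega, show ¬ j + N < N by omega, if_false]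
    split_ifs <;>
      first | (exfalso; omega) | linear_combination a * h2 | linear_combination (a + c) * h2
  · simp only [h4, h5, if_true, if_false, zero_mul, add_zero]
    split_ifs with h6
    · rfl
    · simp only [B, show i < N by omega, h6, show ¬ i + N < N by omega, if_false, if_true]
      split_ifs <;> first | (exfalso; omega) | ring1 | linear_combination (-c) * h2
  · simp only [h4, h5, if_true, if_false, zero_mul, add_zero]
    split_ifs with h6
    · rfl
    · simp only [B, show j < N by omega, h6, show ¬ j + N < N by omega, if_false, if_true]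
      split_ifs <;> first | (exfalso; omega) | ring1 | linear_combination (-c) * h2
  · simp only [h4, h5, if_false, zero_mul, add_zero]

def C2 (N m μ : ℕ) (φ : ℕ → R) (a c hf : R) (i j : ℕ) : R :=
  if N ≤ i ∧ i + 1 < N + m then
    (if i + j + 1 = 2 * N ∧ m ≤ j ∧ j < N then -c
      else if i + j + 1 = 3 * N ∧ N ≤ j then 2 * c else 0)
  else if N ≤ j ∧ j < N + μ then (if i + j + 1 = 2 * N ∧ m ≤ i ∧ i < N then -c else 0)
  else B3 N m φ a c hf i j

lemma stage4 (m μ : ℕ) (hm : μ + 1 ≤ m) (φ : ℕ → R) (a c hf : R) :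
    D (m + μ + m) (B3 (m + μ) m φ a c hf) = D (m + μ + m) (C2 (m + μ) m μ φ a c hf) := by
  generalize hN : m + μ = N
  have hc : ∀ i, (if N ≤ i ∧ i + 1 < N + m then (-1 : R) else 0) ≠ 0 → i + 1 < N + m :=
    fun i h => by by_contra h'; exact h (if_neg (fun e => h' e.2))
  have hc' : ∀ i, (if N ≤ i ∧ i < N + μ then (-1 : R) else 0) ≠ 0 → i + 1 < N + m :=
    fun i h => by by_contra h'; exact h (if_neg (by omega))
  rw [D_op _ _ (fun i => if N ≤ i ∧ i + 1 < N + m then -1 else 0) (fun i => i + 1)
      (fun i _ h => hc i h) (Or.inr fun i _ _ => by omega),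
    D_opc _ _ (fun i => if N ≤ i ∧ i < N + μ then -1 else 0) (fun i => i + 1)
      (fun i _ h => hc' i h) (Or.inr fun i _ _ => by omega)]
  refine D_congr fun i hi j hj => ?_
  unfold C2
  by_cases h4 : N ≤ i ∧ i + 1 < N + m <;> by_cases h5 : N ≤ j ∧ j < N + μ
  · simp only [h4, h5, and_self, if_true, B3, B, show ¬ i < N by omega, show ¬ j < N by omega,
      show ¬ i + 1 < N by omega, show ¬ j + 1 < N by omega, if_false, and_false,
      show ¬ i < m by omega, show ¬ j < m by omega,
      show ¬ i + 1 < m by omega, show ¬ j + 1 < m by omega]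
    split_ifs <;> first | ring1 | (exfalso; omega)
  · simp only [h4, h5, and_self, if_true, B3, B, show ¬ i < N by omega,
      show ¬ i + 1 < N by omega, if_false, zero_mul, add_zero,
      show ¬ i < m by omega, show ¬ i + 1 < m by omega]
    split_ifs <;> first | ring1 | (exfalso; omega)
  · simp only [h4, h5, and_self, if_true, B3, B, show ¬ j < N by omega,
      show ¬ j + 1 < N by omega, if_false, zero_mul, add_zero,
      show ¬ j < m by omega, show ¬ j + 1 < m by omega]
    split_ifs <;> first | ring1 | (exfalso; omega)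
  · simp only [h4, h5, if_false, zero_mul, add_zero]

def sk (p q a : ℕ) : ℕ := if a < p then a else a + q
def rv (p q i : ℕ) : ℕ := if p ≤ i ∧ i < p + q then 2 * p + q - 1 - i else i

lemma D_rv (n p q : ℕ) (h : p + q ≤ n) (K : ℕ → ℕ → R) :
    D n K = (-1) ^ (q / 2) * D n (fun i j => K (rv p q i) j) := D_rev n p q h K

lemma D_sk (p q r : ℕ) (K : ℕ → ℕ → R) (c : R)
    (h : ∀ a < q, ∀ j < p + q + r, K (p + a) j = if j = p + a then c else 0) :
    D (p + q + r) K = c ^ q * D (p + r) (fun a b => K (sk p q a) (sk p q b)) := D_seg p q r K c h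

lemma D_sk' (p q r : ℕ) (K : ℕ → ℕ → R) (c : R)
    (h : ∀ a < q, ∀ j < p + q + r, K j (p + a) = if j = p + a then c else 0) :
    D (p + q + r) K = c ^ q * D (p + r) (fun a b => K (sk p q a) (sk p q b)) := D_seg' p q r K c h

lemma sk_lt {p q a : ℕ} (h : a < p) : sk p q a = a := if_pos h
lemma sk_ge {p q a : ℕ} (h : p ≤ a) : sk p q a = a + q := if_neg (by omega)
lemma rv_lt {p q a : ℕ} (h : a < p) : rv p q a = a := if_neg (by omega)
lemma rv_ge {p q a : ℕ} (h : p + q ≤ a) : rv p q a = a := if_neg (by omega)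
lemma rv_in {p q a : ℕ} (h : p ≤ a) (h' : a < p + q) : rv p q a = 2 * p + q - 1 - a :=
  if_pos ⟨h, h'⟩

lemma case2 (μ κ : ℕ) (φ : ℕ → R) (a c ci hf : R) (hc : c * ci = 1) (h2 : 2 * hf = 1) (m : ℕ)
    (hm : m = μ + 1 + κ) :
    D (m + μ + m) (B (m + μ) φ a c) =
      (-1) ^ (μ + (κ + 1) / 2) * (2 * c) ^ κ * c ^ (2 * μ + 1) *
        Hk m (fun s => φ s - a * a * ci + if s < m + μ then 0 else hf * c) := by
  have r1 : ∀ i < m, rv m (2 * μ) (rv (m + μ + μ) (κ + 1)
      (sk (m + μ + (μ + 1)) κ (sk m μ (sk m μ i)))) = i := fun i hi => by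
    rw [sk_lt hi, sk_lt hi, sk_lt (by omega), rv_lt (a := i) (by omega), rv_lt hi]
  have r2 : rv m (2 * μ) (rv (m + μ + μ) (κ + 1)
      (sk (m + μ + (μ + 1)) κ (sk m μ (sk m μ m)))) = m + μ + μ + κ := by
    rw [sk_ge le_rfl, sk_ge (a := m + μ) (by omega), sk_lt (by omega),
      rv_in (a := m + μ + μ) le_rfl (by omega), rv_ge (by omega)]
    omega
  have r3 : ∀ i < m, sk (m + μ + (μ + 1)) κ (sk m μ (sk m μ i)) = i := fun i hi => by
    rw [sk_lt hi, sk_lt hi, sk_lt (by omega)]
  have r4 : sk (m + μ + (μ + 1)) κ (sk m μ (sk m μ m)) = m + μ + μ := by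
    rw [sk_ge le_rfl, sk_ge (a := m + μ) (by omega), sk_lt (by omega)]
  rw [stage3 _ _ (by omega) (by omega) _ _ _ hf h2, stage4 _ _ (by omega),
    D_rv _ m (2 * μ) (by omega), D_rv _ (m + μ + μ) (κ + 1) (by omega),
    show m + μ + m = m + μ + (μ + 1) + κ + 0 by omega, D_sk _ κ 0 _ (2 * c), add_zero,
    D_sk m μ (μ + 1) _ (-c), show m + (μ + 1) = m + μ + 1 by omega,
    D_sk' m μ 1 _ (-c), D_border m _ (a + hf * c) c ci hc]
  · rw [show 2 * μ / 2 = μ by omega, Hk, D_congr
      (L := fun i j => φ (i + j) - a * a * ci + if i + j < m + μ then 0 else hf * c)]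
    · rw [show c ^ (2 * μ + 1) = (-c) ^ μ * (-c) ^ μ * c by rw [← mul_pow]; ring]
      ring
    · intro i hi j hj
      rw [r1 i hi, r3 j hj, C2, if_neg (by omega), if_neg (by omega), B3, if_pos hi, if_pos hj]
      split_ifs
      · linear_combination (-(2 * a * hf) - hf * hf * c) * hc - a * h2
      · linear_combination (-(2 * a * hf) - hf * hf * c) * hc - (a + c + hf * c) * h2
  · intro i hi
    rw [r1 i hi, r4, C2, if_neg (by omega), if_neg (by omega), B3, if_pos hi, if_neg (by omega),
      if_neg (by omega)]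
  · intro i hi
    rw [r2, r3 i hi, C2, if_neg (by omega), if_neg (by omega), B3, if_neg (by omega), if_pos hi,
      if_neg (by omega)]
  · rw [r2, r4, C2, if_neg (by omega), if_neg (by omega), B3, if_neg (by omega), if_neg (by omega),
      B, if_neg (by omega), if_neg (by omega), if_pos (by omega)]
  · intro b hb j hj
    rw [sk_ge (a := m + b) (by omega), sk_lt (a := m + b + μ) (by omega)]
    by_cases h3 : j < m
    · rw [sk_lt h3, sk_lt (by omega), rv_lt (a := j) (by omega), rv_lt h3, C2, if_neg (by omega),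
        if_pos (by omega), if_neg (by omega), if_neg (by omega)]
    · rw [sk_ge (a := j) (by omega), sk_lt (by omega)]
      by_cases h4 : j < m + μ
      · rw [rv_lt (a := j + μ) (by omega), rv_in (by omega) (by omega), C2, if_neg (by omega),
          if_pos (by omega)]
        split_ifs <;> first | rfl | (exfalso; omega)
      · rw [rv_in (a := j + μ) (by omega) (by omega), rv_ge (by omega), C2, if_neg (by omega),
          if_pos (by omega), if_neg (by omega), if_neg (by omega)]
  · intro b hb j hj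
    rw [sk_lt hj, sk_lt (a := m + b) (by omega), rv_lt (a := m + b) (by omega),
      rv_in (by omega) (by omega), C2, if_pos (by omega)]
    split_ifs <;> first | rfl | (exfalso; omega)
  · intro b hb j hj
    rw [rv_in (a := m + μ + (μ + 1) + b) (by omega) (by omega), rv_ge (by omega), C2,
      if_pos (by omega)]
    split_ifs <;> first | rfl | (exfalso; omega)

end Pool.Agent.H.MP_9fc12a_nt
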