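import Mathlib
import Pool.Agent.H.MP_9fc12a_nt.A

namespace Pool.Agent.H.MP_9fc12a_nt

open Pool.Agent.Lib.helper11.Det

variable {R : Type} [CommRing R]

def S (t : R) (n : ℕ) : R := Nat.ofDigits t (Nat.digits 2 n)

lemma S_step (t : R) (n : ℕ) : S t n = (n % 2 : ℕ) + t * S t (n / 2) := by
  rcases Nat.eq_zero_or_pos n with rfl | h
  · simp [S, Nat.ofDigits]
  · rw [S, Nat.digits_def' (by norm_num) h]; rfl

lemma S_add (t : R) (k : ℕ) : ∀ s < 2 ^ k, S t (s + 2 ^ k) = S t s + t ^ k := by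
  induction k with
  | zero =>
    intro s hs
    obtain rfl : s = 0 := by omega
    simp [S, Nat.ofDigits]
  | succ k ih =>
    intro s hs
    rw [S_step, S_step t s, pow_succ, show (s + 2 ^ k * 2) % 2 = s % 2 by omega,
      show (s + 2 ^ k * 2) / 2 = s / 2 + 2 ^ k by omega, ih _ (by rw [pow_succ] at hs; omega)]
    ring

def Φ (t : R) (k : ℕ) (z u : R) (s : ℕ) : R :=
  z + if s < 2 ^ (k + 1) then S t s else u + S t (s - 2 ^ (k + 1))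

def K (t : R) (k ρ : ℕ) (z u : R) : R := Hk (2 ^ k + ρ + 1) (Φ t k z u)

lemma K_B (t : R) (k ρ : ℕ) (h : ρ < 2 ^ k) (z u : R) :
    K t k ρ z u = D (2 ^ k + (ρ + 1)) (B (2 ^ k) (Φ t k z u) (t ^ k) (u - 2 * t ^ k)) := by
  rw [K, add_assoc]
  have e : 2 ^ (k + 1) = 2 * 2 ^ k := by ring
  refine stage1 _ _ (by positivity) (by omega) _ _ _ ?_ ?_ ?_
  · intro s hs
    rw [Φ, Φ, if_pos (by omega), if_pos (by omega), S_add t k s hs]; ring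
  · intro s h1 h2
    obtain ⟨s, rfl⟩ : ∃ r, s = r + 2 ^ k := ⟨s - 2 ^ k, by omega⟩
    rw [Φ, Φ, if_neg (by omega), if_pos (by omega), S_add t k s (by omega),
      show s + 2 ^ k + 2 ^ k - 2 ^ (k + 1) = s by omega]; ring
  · intro s h1 h2
    obtain ⟨s, rfl⟩ : ∃ r, s = r + 2 ^ (k + 1) := ⟨s - 2 ^ (k + 1), by omega⟩
    rw [Φ, Φ, if_neg (by omega), if_neg (by omega), Nat.add_sub_cancel,
      show s + 2 ^ (k + 1) + 2 ^ k - 2 ^ (k + 1) = s + 2 ^ k by omega, S_add t k s (by omega)]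
    ring

lemma K_zero (t z u : R) : K t 0 0 z u = (u - 2) * z - 1 := by
  show (Matrix.of fun i j : Fin 2 => Φ t 0 z u (i + j)).det = _
  rw [Matrix.det_fin_two]
  simp [S, Φ, Nat.ofDigits]
  ring

lemma K_one (t : R) (j ρ : ℕ) (h : ρ < 2 ^ j) (z u ci : R) (hc : (u - 2 * t ^ (j + 1)) * ci = 1) :
    K t (j + 1) ρ z u = (-1) ^ ρ * (u - 2 * t ^ (j + 1)) ^ (2 * ρ + 1) *
      K t j (2 ^ j - 1 - ρ) (z - t ^ (j + 1) * t ^ (j + 1) * ci) (t ^ (j + 1)) := by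
  have e : 2 ^ (j + 1) = 2 * 2 ^ j := by ring
  rw [K_B t _ _ (by omega)]
  have h1 := case1 (2 ^ j + (2 ^ j - 1 - ρ) + 1) ρ (by omega) (Φ t (j + 1) z u) (t ^ (j + 1))
    _ ci hc
  rw [show 2 ^ j + (2 ^ j - 1 - ρ) + 1 + ρ = 2 ^ (j + 1) by omega] at h1
  rw [h1, K]
  congr 1
  refine D_congr fun a ha b hb => ?_
  have e2 : 2 ^ (j + 1 + 1) = 2 * 2 ^ (j + 1) := by ring
  beta_reduce
  rw [Φ, Φ, if_pos (by omega)]
  split_ifs with h2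
  · ring
  · obtain ⟨s, hs⟩ : ∃ s, a + b = s + 2 ^ (j + 1) := ⟨a + b - 2 ^ (j + 1), by omega⟩
    rw [hs, S_add t _ s (by omega), Nat.add_sub_cancel]; ring

lemma K_two (t : R) (j ρ : ℕ) (h : ρ < 2 ^ j) (z u ci hf : R)
    (hc : (u - 2 * t ^ (j + 1)) * ci = 1) (h2 : 2 * hf = 1) :
    K t (j + 1) (2 ^ j + ρ) z u =
      (-1) ^ 2 ^ j * 2 ^ (2 * ρ + 1) * (u - 2 * t ^ (j + 1)) ^ 2 ^ (j + 1) *
      K t j ρ (z - t ^ (j + 1) * t ^ (j + 1) * ci) (hf * u) := by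
  have e : 2 ^ (j + 1) = 2 * 2 ^ j := by ring
  rw [K_B t _ _ (by omega)]
  have h1 := case2 (2 ^ j - 1 - ρ) (2 * ρ + 1) (Φ t (j + 1) z u) (t ^ (j + 1))
    _ ci hf hc h2 (2 ^ j + ρ + 1) (by omega)
  rw [show 2 ^ j + ρ + 1 + (2 ^ j - 1 - ρ) = 2 ^ (j + 1) by omega,
    show 2 ^ j - 1 - ρ + (2 * ρ + 1 + 1) / 2 = 2 ^ j by omega] at h1
  rw [h1, K, mul_pow, ← mul_assoc, mul_assoc _ _ (_ ^ (2 * (2 ^ j - 1 - ρ) + 1)), ← pow_add,
    show 2 * ρ + 1 + (2 * (2 ^ j - 1 - ρ) + 1) = 2 ^ (j + 1) by omega]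
  congr 1
  refine D_congr fun a ha b hb => ?_
  have e2 : 2 ^ (j + 1 + 1) = 2 * 2 ^ (j + 1) := by ring
  beta_reduce
  rw [Φ, Φ, if_pos (by omega)]
  split_ifs with h3
  · ring
  · obtain ⟨s, hs⟩ : ∃ s, a + b = s + 2 ^ (j + 1) := ⟨a + b - 2 ^ (j + 1), by omega⟩
    rw [hs, S_add t _ s (by omega), Nat.add_sub_cancel]
    linear_combination (-t ^ (j + 1)) * h2

lemma H_eq (t : R) (k ρ : ℕ) (h : ρ < 2 ^ k) :
    Hk (2 ^ k + ρ + 1) (S t) = K t k ρ 0 (t ^ (k + 1)) := by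
  rw [K]
  refine D_congr fun a ha b hb => ?_
  have e : 2 ^ (k + 1) = 2 * 2 ^ k := by ring
  rw [Φ]
  split_ifs with h3
  · ring
  · obtain ⟨s, hs⟩ : ∃ s, a + b = s + 2 ^ (k + 1) := ⟨a + b - 2 ^ (k + 1), by omega⟩
    rw [hs, S_add t _ s (by omega), Nat.add_sub_cancel]; ring

lemma decomp (n : ℕ) (hn : 2 ≤ n) : ∃ k ρ, ρ < 2 ^ k ∧ n = 2 ^ k + ρ + 1 := by
  refine ⟨Nat.log 2 (n - 1), n - 1 - 2 ^ Nat.log 2 (n - 1), ?_, ?_⟩
  · have := Nat.lt_pow_succ_log_self (b := 2) (by norm_num) (n - 1)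
    rw [pow_succ] at this
    omega
  · have := Nat.pow_log_le_self 2 (x := n - 1) (by omega)
    omega

lemma map_S {A : Type} [CommRing A] (f : R →+* A) (t : R) (n : ℕ) : f (S t n) = S (f t) n := by
  unfold S
  generalize Nat.digits 2 n = l
  induction l with
  | nil => simp [Nat.ofDigits]
  | cons a l ih => simp [Nat.ofDigits, ih]

lemma K_ne (t : ℂ) (ht : 4 < ‖t‖) (k : ℕ) : ∀ ρ < 2 ^ k, ∀ z u : ℂ, ‖t‖ ^ (k + 1) ≤ ‖u‖ →
    ‖t‖ ^ (k + 1) ≤ ‖z‖ * ((‖t‖ - 1) * (‖t‖ - 2)) → K t k ρ z u ≠ 0 := by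
  induction k with
  | zero =>
    intro ρ hρ z u hu hz
    obtain rfl : ρ = 0 := by omega
    rw [K_zero, sub_ne_zero]
    intro h
    have h1 := congrArg norm h
    rw [norm_mul, norm_one] at h1
    have h2 : ‖u‖ - 2 ≤ ‖u - 2‖ := by simpa using norm_sub_norm_le u 2
    rw [zero_add, pow_one] at hu hz
    have h3 : (‖t‖ - 2) * ‖z‖ ≤ 1 := by
      rw [← h1]; exact mul_le_mul_of_nonneg_right (by linarith) (norm_nonneg _)
    nlinarith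
  | succ j ih =>
    intro ρ hρ z u hu hz
    set T := ‖t‖ with hT
    have hp : 0 < T ^ (j + 1) := by positivity
    have hc : T ^ (j + 1) * (T - 2) ≤ ‖u - 2 * t ^ (j + 1)‖ := by
      have := norm_sub_norm_le u (2 * t ^ (j + 1))
      rw [norm_mul, norm_pow, ← hT, Complex.norm_two] at this
      rw [pow_succ] at hu
      linarith
    have hc0 : 0 < ‖u - 2 * t ^ (j + 1)‖ := lt_of_lt_of_le (mul_pos hp (by linarith)) hc
    have hc1 : u - 2 * t ^ (j + 1) ≠ 0 := norm_pos_iff.1 hc0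
    have hz' : T ^ (j + 1) ≤ ‖z - t ^ (j + 1) * t ^ (j + 1) * (u - 2 * t ^ (j + 1))⁻¹‖ *
        ((T - 1) * (T - 2)) := by
      have h1 := norm_sub_norm_le z (t ^ (j + 1) * t ^ (j + 1) * (u - 2 * t ^ (j + 1))⁻¹)
      have h2 : ‖t ^ (j + 1) * t ^ (j + 1) * (u - 2 * t ^ (j + 1))⁻¹‖ * (T - 2) ≤ T ^ (j + 1) := by
        rw [norm_mul, norm_mul, norm_pow, norm_inv, ← hT, ← div_eq_mul_inv, div_mul_eq_mul_div,
          div_le_iff₀ hc0]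
        nlinarith
      rw [pow_succ T (j + 1)] at hz
      have h3 : 0 < (T - 1) * (T - 2) := mul_pos (by linarith) (by linarith)
      nlinarith [mul_le_mul_of_nonneg_right h1 h3.le,
        mul_le_mul_of_nonneg_right h2 (show 0 ≤ T - 1 by linarith)]
    by_cases h : ρ < 2 ^ j
    · rw [K_one t j ρ h z u _ (mul_inv_cancel₀ hc1)]
      exact mul_ne_zero (mul_ne_zero (by simp) (pow_ne_zero _ hc1))
        (ih _ (by omega) _ _ (by rw [norm_pow]) hz')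
    · obtain ⟨ρ, rfl⟩ : ∃ r, ρ = 2 ^ j + r := ⟨ρ - 2 ^ j, by omega⟩
      have hρ' : ρ < 2 ^ j := by rw [pow_succ] at hρ; omega
      rw [K_two t j ρ hρ' z u _ (1 / 2) (mul_inv_cancel₀ hc1) (by norm_num)]
      refine mul_ne_zero (mul_ne_zero (by simp) (pow_ne_zero _ hc1)) (ih _ hρ' _ _ ?_ hz')
      rw [norm_mul]
      rw [pow_succ T (j + 1)] at hu
      norm_num
      nlinarith

lemma H_ne (t : ℂ) (ht : 4 < ‖t‖) (n : ℕ) (hn : 2 ≤ n) : Hk n (S t) ≠ 0 := by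
  obtain ⟨k, ρ, hρ, rfl⟩ := decomp n hn
  rw [H_eq t k ρ hρ]
  rcases k with _ | j
  · obtain rfl : ρ = 0 := by omega
    rw [K_zero]; simp
  have ht0 : t ≠ 0 := by rintro rfl; norm_num at ht
  have ht2 : t - 2 ≠ 0 := by
    intro h
    rw [sub_eq_zero.1 h] at ht
    norm_num at ht
  have e : t ^ (j + 1 + 1) - 2 * t ^ (j + 1) = t ^ (j + 1) * (t - 2) := by ring
  have hc1 : t ^ (j + 1 + 1) - 2 * t ^ (j + 1) ≠ 0 := by
    rw [e]; exact mul_ne_zero (pow_ne_zero _ ht0) ht2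
  have hp : 0 < ‖t‖ ^ (j + 1) := by positivity
  have hz : ‖t‖ ^ (j + 1) ≤ ‖0 - t ^ (j + 1) * t ^ (j + 1) *
      (t ^ (j + 1 + 1) - 2 * t ^ (j + 1))⁻¹‖ * ((‖t‖ - 1) * (‖t‖ - 2)) := by
    have e2 : 0 - t ^ (j + 1) * t ^ (j + 1) * (t ^ (j + 1 + 1) - 2 * t ^ (j + 1))⁻¹ =
        -(t ^ (j + 1) / (t - 2)) := by
      rw [e]; field_simp; ring
    have h1 : ‖t - 2‖ ≤ ‖t‖ + 2 := by simpa using norm_sub_le t 2
    rw [e2, norm_neg, norm_div, norm_pow, div_mul_eq_mul_div, le_div_iff₀ (norm_pos_iff.2 ht2)]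
    refine mul_le_mul_of_nonneg_left ?_ hp.le
    nlinarith
  by_cases h : ρ < 2 ^ j
  · rw [K_one t j ρ h _ _ _ (mul_inv_cancel₀ hc1)]
    exact mul_ne_zero (mul_ne_zero (by simp) (pow_ne_zero _ hc1))
      (K_ne t ht _ _ (by omega) _ _ (by rw [norm_pow]) hz)
  · obtain ⟨ρ, rfl⟩ : ∃ r, ρ = 2 ^ j + r := ⟨ρ - 2 ^ j, by omega⟩
    have hρ' : ρ < 2 ^ j := by rw [pow_succ] at hρ; omega
    rw [K_two t j ρ hρ' _ _ _ (1 / 2) (mul_inv_cancel₀ hc1) (by norm_num)]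
    refine mul_ne_zero (mul_ne_zero (by simp) (pow_ne_zero _ hc1))
      (K_ne t ht _ _ hρ' _ _ ?_ hz)
    rw [norm_mul, norm_pow, pow_succ ‖t‖ (j + 1)]
    norm_num
    nlinarith

end Pool.Agent.H.MP_9fc12a_nt
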