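import Mathlib
import Pool.Agent.H.MP_9fc12a_nt.B

namespace Pool.Agent.H.MP_9fc12a_nt

variable {R : Type} [CommRing R]

def stp (s x : R) (v : R × R) : R × R := (s * ((2 * x - 1) * v.1), s * (x * v.1 + (2 * x - 1) * v.2))

def AB : ℕ → ℕ → R → R × R
  | 0, _, x => (-(2 * x - 1), -x)
  | j + 1, ρ, x =>
    if ρ < 2 ^ j then stp ((-1) ^ (ρ + 1) * (2 * x - 1) ^ (2 * ρ)) x (AB j (2 ^ j - 1 - ρ) 1)
    else stp ((-1) ^ 2 ^ j * (2 * x - 1) ^ (2 ^ (j + 1) - 1)) x (AB j (ρ - 2 ^ j) (2 * x))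

lemma map_AB {A : Type} [CommRing A] (f : R →+* A) (k : ℕ) : ∀ (ρ : ℕ) (x : R),
    f (AB k ρ x).1 = (AB k ρ (f x)).1 ∧ f (AB k ρ x).2 = (AB k ρ (f x)).2 := by
  induction k with
  | zero => intro ρ x; simp [AB, map_ofNat]
  | succ j ih =>
    intro ρ x
    unfold AB
    split_ifs
    · simp [stp, ih, map_ofNat]
    · simp [stp, ih, map_ofNat]

lemma K_AB (k : ℕ) : ∀ ρ < 2 ^ k, ∀ z x : ℚ, 1 ≤ x →
    x ^ (2 * ρ + 1) * K 1 k ρ z x⁻¹ = (AB k ρ x).1 * z + (AB k ρ x).2 := by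
  induction k with
  | zero =>
    intro ρ hρ z x hx
    obtain rfl : ρ = 0 := by omega
    have : x ≠ 0 := by linarith
    rw [K_zero, AB]
    field_simp
    ring
  | succ j ih =>
    intro ρ hρ z x hx
    have h0 : x ≠ 0 := by linarith
    have hq : 2 * x - 1 ≠ 0 := by linarith
    have hc : (x⁻¹ - 2 * 1 ^ (j + 1)) * (-(x / (2 * x - 1))) = 1 := by
      rw [one_pow, show x⁻¹ - 2 * 1 = -(2 * x - 1) / x by field_simp; ring]
      generalize 2 * x - 1 = q at *
      field_simp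
    have e : x⁻¹ - 2 * 1 ^ (j + 1) = -(2 * x - 1) / x := by rw [one_pow]; field_simp; ring
    by_cases h : ρ < 2 ^ j
    · have h1 := ih (2 ^ j - 1 - ρ) (by omega) (z - 1 ^ (j + 1) * 1 ^ (j + 1) *
        (-(x / (2 * x - 1)))) 1 le_rfl
      rw [K_one 1 j ρ h z _ _ hc, AB, if_pos h, e]
      rw [one_pow, one_mul, inv_one] at h1
      rw [one_pow] at h1 ⊢
      rw [h1, stp, div_pow, neg_pow (2 * x - 1), Odd.neg_one_pow (odd_two_mul_add_one ρ)]
      simp only
      rw [pow_succ (2 * x - 1), pow_succ (-1)]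
      field_simp
      ring
    · obtain ⟨ρ, rfl⟩ : ∃ r, ρ = 2 ^ j + r := ⟨ρ - 2 ^ j, by omega⟩
      have hρ' : ρ < 2 ^ j := by rw [pow_succ] at hρ; omega
      have h1 := ih ρ hρ' (z - 1 ^ (j + 1) * 1 ^ (j + 1) *
        (-(x / (2 * x - 1)))) (2 * x) (by linarith)
      rw [K_two 1 j ρ hρ' z _ _ (2⁻¹) hc (by norm_num), AB, if_neg h, e, Nat.add_sub_cancel_left,
        ← mul_inv]
      generalize K (1 : ℚ) j ρ _ _ = w at *
      rw [one_pow] at h1
      obtain ⟨m, hm⟩ : ∃ m, 2 ^ (j + 1) = m + 1 := ⟨2 ^ (j + 1) - 1, by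
        have : 0 < 2 ^ (j + 1) := by positivity
        omega⟩
      have he : Even (2 ^ (j + 1)) := ⟨2 ^ j, by ring⟩
      rw [div_pow, he.neg_pow, show 2 * (2 ^ j + ρ) + 1 = 2 ^ (j + 1) + (2 * ρ + 1) by ring,
        pow_add, hm, Nat.add_sub_cancel, stp]
      simp only
      rw [mul_pow] at h1
      have h2 : x ^ (m + 1) * x ^ (2 * ρ + 1) * ((-1) ^ 2 ^ j * 2 ^ (2 * ρ + 1) *
          ((2 * x - 1) ^ (m + 1) / x ^ (m + 1)) * w) =
          (-1) ^ 2 ^ j * (2 * x - 1) ^ (m + 1) * (2 ^ (2 * ρ + 1) * x ^ (2 * ρ + 1) * w) := by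
        field_simp
      rw [h2, h1, pow_succ (2 * x - 1)]
      field_simp
      ring

lemma S_one (n : ℕ) : S (1 : R) n = ((Nat.digits 2 n).sum : ℕ) := by
  unfold S
  generalize Nat.digits 2 n = l
  induction l with
  | nil => simp [Nat.ofDigits]
  | cons a l ih => simp [Nat.ofDigits, ih]

lemma H_int (k ρ : ℕ) (h : ρ < 2 ^ k) : Hk (2 ^ k + ρ + 1) (S (1 : ℤ)) = (AB k ρ (1 : ℤ)).2 := by
  have h1 := K_AB k ρ h 0 1 le_rfl
  have h2 := H_eq (1 : ℚ) k ρ h
  rw [one_pow] at h2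
  rw [one_pow, one_mul, inv_one, mul_zero, zero_add, ← h2] at h1
  have h3 := (map_AB (Int.castRingHom ℚ) k ρ 1).2
  have h4 := Pool.Agent.Lib.helper11.Det.map_D (Int.castRingHom ℚ) (2 ^ k + ρ + 1)
    (fun i j => S (1 : ℤ) (i + j))
  simp only [map_S, map_one] at h3 h4
  apply Int.cast_injective (α := ℚ)
  exact h4.trans (h1.trans h3.symm)

lemma kernel_finite {Q Y : Type} [Finite Q] (τ : ℕ → Q) (δ : Q → ℕ → Q) (out : Q → Y) (a : ℕ → Y)
    (hτ : ∀ n b, b < 2 → τ (2 * n + b) = δ (τ n) b) (ha : ∀ n, a n = out (τ n)) :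
    {f : ℕ → Y | ∃ e r : ℕ, r < 2 ^ e ∧ f = fun n => a (2 ^ e * n + r)}.Finite := by
  have h : ∀ e r, r < 2 ^ e → ∃ g : Q → Q, ∀ n, τ (2 ^ e * n + r) = g (τ n) := by
    intro e
    induction e with
    | zero =>
      intro r hr
      obtain rfl : r = 0 := by omega
      exact ⟨id, by simp⟩
    | succ e ih =>
      intro r hr
      obtain ⟨g, hg⟩ := ih (r / 2) (by rw [pow_succ] at hr; omega)
      refine ⟨fun q => δ (g q) (r % 2), fun n => ?_⟩
      rw [show 2 ^ (e + 1) * n + r = 2 * (2 ^ e * n + r / 2) + r % 2 by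
        rw [pow_succ, mul_add, mul_comm (2 ^ e) 2, mul_assoc]; omega,
        hτ _ _ (by omega), hg]
  refine (Set.finite_range (fun g : Q → Q => fun n => out (g (τ n)))).subset ?_
  rintro f ⟨e, r, hr, rfl⟩
  obtain ⟨g, hg⟩ := h e r hr
  exact ⟨g, funext fun n => by rw [ha, hg]⟩

section
variable (M : ℕ)

abbrev St (R : Type) (M : ℕ) := Option (Fin 2 × R × (Fin (2 ^ M) → R × R))

def adj (s x : R) (l : R × R) : R × R := (s * ((2 * x - 1) * l.1 + x * l.2), s * (2 * x - 1) * l.2)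

def dot (l v : R × R) : R := l.1 * v.1 + l.2 * v.2

lemma dot_stp (s x : R) (l v : R × R) : dot l (stp s x v) = dot (adj s x l) v := by
  simp only [dot, stp, adj]; ring

def cmp (j : ℕ) (b : Fin 2) (s : ℕ) : ℕ := if b = 1 then s else 2 ^ j - 1 - s

def dl (q : St R M) (b : ℕ) : St R M :=
  match q with
  | none => if b = 0 then none else some (1, 1, fun _ => (0, 1))
  | some (c, x, l) =>
    if (c : ℕ) = b then some (c, 2 * x, fun w => adj ((2 * x - 1) ^ (2 ^ M - 1)) x (l w))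
    else some (c + 1, 1, fun w =>
      adj ((-1) ^ (cmp M c w + 1) * (2 * x - 1) ^ (2 * cmp M c w)) x (l w))

def sg (R : Type) [CommRing R] (M : ℕ) (p : ℕ) : St R M :=
  if h : p = 0 then none else dl M (sg R M (p / 2)) (p % 2)
decreasing_by omega

lemma sg_step (n b : ℕ) (hb : b < 2) : sg R M (2 * n + b) = dl M (sg R M n) b := by
  rw [sg]
  split_ifs with h
  · obtain rfl : n = 0 := by omega
    obtain rfl : b = 0 := by omega
    rw [sg]; simp [dl]
  · rw [show (2 * n + b) / 2 = n by omega, show (2 * n + b) % 2 = b by omega]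

lemma sg_spec (hM : 1 ≤ M) (hq : ∀ x : R, (2 * x - 1) ^ 2 ^ M = 1) (a : ℕ → R)
    (ha : ∀ k ρ, ρ < 2 ^ k → a (2 ^ k + ρ) = (AB k ρ 1).2) (p : ℕ) (hp : 1 ≤ p) :
    ∃ c x l, sg R M p = some (c, x, l) ∧ (c : ℕ) = p % 2 ∧ ∀ j, M ≤ j → ∀ s < 2 ^ j,
      a (2 ^ j * p + s) =
        dot (l ⟨s % 2 ^ M, Nat.mod_lt _ (by positivity)⟩) (AB j (cmp j c s) x) := by
  induction p using Nat.strong_induction_on with
  | _ p ih =>
    obtain ⟨n, b, hb, rfl⟩ : ∃ n b, b < 2 ∧ p = 2 * n + b := ⟨p / 2, p % 2, by omega, by omega⟩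
    rw [sg_step M n b hb]
    rcases Nat.eq_zero_or_pos n with rfl | hn
    · obtain rfl : b = 1 := by omega
      refine ⟨1, 1, fun _ => (0, 1), by rw [sg]; simp [dl], rfl, fun j _ s hs => ?_⟩
      simp [dot, cmp, ha j s hs]
    obtain ⟨c, x, l, e, hc, h⟩ := ih n (by omega) hn
    rw [e]
    have key : ∀ j, M ≤ j → ∀ s < 2 ^ j, a (2 ^ j * (2 * n + b) + s) =
        dot (l ⟨s % 2 ^ M, Nat.mod_lt _ (by positivity)⟩)
          (AB (j + 1) (cmp (j + 1) c (2 ^ j * b + s)) x) := by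
      intro j hj s hs
      have h1 := h (j + 1) (by omega) (2 ^ j * b + s) (by rw [pow_succ]; nlinarith)
      rw [show 2 ^ j * (2 * n + b) + s = 2 ^ (j + 1) * n + (2 ^ j * b + s) by ring, h1]
      congr 3
      obtain ⟨d, rfl⟩ := Nat.exists_eq_add_of_le hj
      rw [pow_add, mul_assoc, Nat.mul_add_mod]
    have hev : ∀ j, M ≤ j → ∀ w : ℕ, (-1 : R) ^ (2 ^ j * w) = 1 := by
      intro j hj w
      obtain ⟨d, rfl⟩ := Nat.exists_eq_add_of_le (hM.trans hj)
      rw [pow_add, pow_one, mul_assoc, pow_mul]; simp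
    by_cases hcb : (c : ℕ) = b
    · refine ⟨c, 2 * x, _, by simp only [dl, hcb, if_true]; rfl, by omega, fun j hj s hs => ?_⟩
      have e2 : 2 ^ (j + 1) = 2 * 2 ^ j := by ring
      have h1 : cmp (j + 1) c (2 ^ j * b + s) = 2 ^ j + cmp j c s := by
        unfold cmp
        split_ifs with h2
        · subst h2; rw [← hcb]; simp
        · have : b = 0 := by omega
          subst this; omega
      rw [key j hj s hs, h1, AB, if_neg (by omega), Nat.add_sub_cancel_left, dot_stp]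
      congr 2
      have h3 := hev j hj 1
      rw [mul_one] at h3
      rw [h3, one_mul]
      obtain ⟨d, rfl⟩ := Nat.exists_eq_add_of_le hj
      have h4 : 0 < 2 ^ M := by positivity
      have h5 : 0 < 2 ^ (d + 1) := by positivity
      rw [show 2 ^ (M + d + 1) - 1 = 2 ^ M * (2 ^ (d + 1) - 1) + (2 ^ M - 1) by
        rw [add_assoc, pow_add, Nat.mul_sub, mul_one]
        have := Nat.le_mul_of_pos_right (2 ^ M) h5
        omega, pow_add, pow_mul, hq, one_pow, one_mul]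
    · refine ⟨c + 1, 1, _, by simp only [dl, hcb, if_false]; rfl, by omega, fun j hj s hs => ?_⟩
      have e2 : 2 ^ (j + 1) = 2 * 2 ^ j := by ring
      have h1 : cmp (j + 1) c (2 ^ j * b + s) = cmp j c s := by
        unfold cmp
        split_ifs with h2
        · have : b = 0 := by omega
          subst this; omega
        · have : b = 1 := by omega
          subst this; omega
      have h2 : cmp j c s < 2 ^ j := by unfold cmp; split_ifs <;> omega
      have h3 : 2 ^ j - 1 - cmp j c s = cmp j (c + 1) s := by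
        unfold cmp
        fin_cases c
        · simp; omega
        · simp
      rw [key j hj s hs, h1, AB, if_pos h2, h3, dot_stp]
      congr 2
      obtain ⟨w, hw⟩ : ∃ w, cmp j c s = 2 ^ M * w + cmp M c (s % 2 ^ M) := by
        unfold cmp
        have h6 := Nat.div_add_mod s (2 ^ M)
        split_ifs
        · exact ⟨s / 2 ^ M, h6.symm⟩
        · obtain ⟨d, rfl⟩ := Nat.exists_eq_add_of_le hj
          have h7 : s / 2 ^ M < 2 ^ d := by
            rw [Nat.div_lt_iff_lt_mul (by positivity), mul_comm, ← pow_add]; exact hs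
          obtain ⟨y, hy⟩ := Nat.exists_eq_add_of_lt h7
          have h8 : s % 2 ^ M < 2 ^ M := Nat.mod_lt _ (by positivity)
          refine ⟨y, ?_⟩
          rw [pow_add, hy, mul_add, mul_add, mul_one]
          omega
      rw [hw, add_assoc, pow_add, hev M le_rfl, one_mul, mul_add, pow_add (2 * x - 1),
        show 2 * (2 ^ M * w) = 2 ^ M * (2 * w) by ring, pow_mul _ (2 ^ M), hq, one_pow, one_mul]

lemma auto [Finite R] {Y : Type} (hM : 1 ≤ M) (hq : ∀ x : R, (2 * x - 1) ^ 2 ^ M = 1) (a : ℕ → R)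
    (ha : ∀ k ρ, ρ < 2 ^ k → a (2 ^ k + ρ) = (AB k ρ 1).2) (o : R → Y) :
    {f : ℕ → Y | ∃ e r : ℕ, r < 2 ^ e ∧ f = fun n => o (a (2 ^ e * n + r))}.Finite := by
  have hpos : 0 < 2 ^ M := by positivity
  refine kernel_finite (Q := St R M × Fin (2 ^ M))
    (fun n => (sg R M (n / 2 ^ M), ⟨n % 2 ^ M, Nat.mod_lt _ hpos⟩))
    (fun q b => (dl M q.1 ((2 * q.2 + b) / 2 ^ M), ⟨(2 * q.2 + b) % 2 ^ M, Nat.mod_lt _ hpos⟩))
    (fun q => match q.1 with
      | none => o (a q.2)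
      | some (c, x, l) => o (dot (l q.2) (AB M (cmp M c q.2) x))) (fun n => o (a n)) ?_ ?_
  · intro n b hb
    have h1 := Nat.div_add_mod n (2 ^ M)
    have h2 : n % 2 ^ M < 2 ^ M := Nat.mod_lt _ hpos
    have e : 2 * n + b = 2 ^ M * (2 * (n / 2 ^ M)) + (2 * (n % 2 ^ M) + b) := by
      rw [mul_left_comm]; omega
    refine Prod.ext ?_ (Fin.ext ?_)
    · simp only
      rw [← sg_step M _ _ (by rw [Nat.div_lt_iff_lt_mul hpos]; omega), e,
        Nat.mul_add_div hpos]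
    · simp only
      rw [e, Nat.mul_add_mod]
  · intro n
    rcases Nat.eq_zero_or_pos (n / 2 ^ M) with h | h
    · have h1 : n < 2 ^ M := by
        rcases Nat.div_eq_zero_iff.1 h with h | h <;> omega
      simp only [h, Nat.mod_eq_of_lt h1]
      rw [sg]; simp
    · obtain ⟨c, x, l, e, -, h2⟩ := sg_spec M hM hq a ha _ h
      have h3 := h2 M le_rfl (n % 2 ^ M) (Nat.mod_lt _ hpos)
      rw [Nat.div_add_mod] at h3
      simp only [e, h3, Nat.mod_mod]

end

end Pool.Agent.H.MP_9fc12a_nt
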